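import Pool.Agent.H458.AR.Fld
import Pool.Graph.R_pool_sql_team_seeded_63374d34.N849.PQ.Int
import Pool.Graph.R_pool_sql_team_seeded_63374d34.N301.PQ.TTV

/-!
# Local squares give common isotropic vectors modulo `Q`, for the lattices `SR`

Project AR (helper458), part TVR, after `N301/PQ/TTV.lean`.
-/

set_option autoImplicit false
set_option linter.all false

open IsDedekindDomain NumberField Polynomial
open scoped Classical

namespace Pool.Agent.H597.AR458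

open Pool.Agent.N922.PQ
open Pool.Agent.H458.AR
open Pool.Agent.N301.PQ (co_crd crd_inj crd_add crd_smul crd_C crd_theta poly_mem val_lt_mem mapO
  int_iff exO theta_ex exists_P1 exists_P2 mem_both not_dvd_a theta_not_mem int_poly)
open Pool.Agent.N874.PP (Ev Sq1 U0)

section lat

variable {L : Type} [Field L]

/-- the lattice -/
def InR (α x : L) : Prop := IsIntegral ℤ (x ^ 2 / α)

theorem InR.prod {α x y : L} (hx : InR α x) (hy : InR α y) : IsIntegral ℤ (x * y / α) := by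
  apply IsIntegral.of_pow (n := 2) (by norm_num)
  have e : (x * y / α) ^ 2 = (x ^ 2 / α) * (y ^ 2 / α) := by ring
  rw [e]
  exact IsIntegral.mul hx hy

theorem InR.add {α x y : L} (hx : InR α x) (hy : InR α y) : InR α (x + y) := by
  have h := hx.prod hy
  have e : (x + y) ^ 2 / α = x ^ 2 / α + (x * y / α + x * y / α) + y ^ 2 / α := by ring
  unfold InR
  rw [e]
  exact (IsIntegral.add hx (h.add h)).add hy

theorem InR.mul {α x c : L} (hc : IsIntegral ℤ c) (hx : InR α x) : InR α (c * x) := by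
  have e : (c * x) ^ 2 / α = c ^ 2 * (x ^ 2 / α) := by ring
  unfold InR
  rw [e]
  exact (hc.pow 2).mul hx

theorem InR.neg {α x : L} (hx : InR α x) : InR α (-x) := by
  have e : (-x) ^ 2 / α = x ^ 2 / α := by ring
  unfold InR
  rw [e]
  exact hx

theorem InR.sub {α x y : L} (hx : InR α x) (hy : InR α y) : InR α (x - y) := by
  rw [sub_eq_add_neg]
  exact hx.add hy.neg

end lat

section main

variable {L O : Type} [Field L] [NumberField L] [CommRing O]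
  [IsDedekindDomain O] [Algebra O L] [IsFractionRing O L] [IsIntegralClosure O ℤ L] {a b : ℤ} {θ : L}

theorem InR.of_span {e : Fin 3 → L} {α : L} (hSR : SR e α) (c : Fin 3 → ℤ) :
    InR α (∑ i, ((c i : ℤ) : L) * e i) :=
  (hSR.mem _).2 ⟨c, rfl⟩

/-- an element of the lattice which is good at `𝔓` -/
theorem stepA {α : L} (hα : α ≠ 0) {𝔓 : HeightOneSpectrum O} (hs : Sq1 𝔓 α) :
    ∃ (y : L) (t g : O), InR α y ∧ t ∉ 𝔓.asIdeal ∧ algebraMap O L g = y * y / α ∧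
      g - t ^ 2 ∈ 𝔓.asIdeal := by
  obtain ⟨s, hs⟩ := hs
  have hvα : 𝔓.valuation L α ≠ 0 := (Valuation.ne_zero_iff _).2 hα
  have hvs : 𝔓.valuation L (s ^ 2) = 𝔓.valuation L α := by
    have h1 : s ^ 2 = α - (α - s ^ 2) := by ring
    rw [h1]
    exact Valuation.map_sub_eq_of_lt_left _ hs
  have hvs' : 𝔓.valuation L (s ^ 2 / α) = 1 := by
    rw [map_div₀, hvs, div_self hvα]
  obtain ⟨n, d, hnd⟩ := 𝔓.exists_primeCompl_mul_eq_of_integer (s ^ 2 / α) hvs'.le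
  have hd : ((d : O) : O) ∉ 𝔓.asIdeal := d.2
  have hy : InR α (s * algebraMap O L (d : O)) := by
    have h1 : (s * algebraMap O L (d : O)) ^ 2 / α = algebraMap O L (n * (d : O)) := by
      rw [map_mul, ← hnd]
      ring
    unfold InR
    rw [h1]
    exact (int_iff O _).2 ⟨_, rfl⟩
  obtain ⟨g, hg⟩ := (int_iff O _).1 (hy.prod hy)
  refine ⟨_, (d : O), g, hy, hd, hg, ?_⟩
  rw [← val_lt_mem (L := L)]
  have h1 : algebraMap O L (g - (d : O) ^ 2) =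
      - ((algebraMap O L (d : O)) ^ 2 * ((α - s ^ 2) / α)) := by
    rw [map_sub, map_pow, hg]
    field_simp
    ring
  rw [h1, Valuation.map_neg, map_mul, map_pow, map_div₀]
  have h2 : 𝔓.valuation L (α - s ^ 2) / 𝔓.valuation L α < 1 :=
    (div_lt_one₀ (zero_lt_iff.2 hvα)).2 hs
  calc _ ≤ 1 * (𝔓.valuation L (α - s ^ 2) / 𝔓.valuation L α) :=
        mul_le_mul_left (pow_le_one₀ zero_le (𝔓.valuation_le_one (d : O))) _
    _ < 1 := by rw [one_mul]; exact h2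

/-- an element of the lattice which is good at `𝔓` and small at `𝔓'` -/
theorem stepB {α : L} (hα : α ≠ 0) {𝔓 𝔓' : HeightOneSpectrum O} (hs : Sq1 𝔓 α)
    (hne : ∃ p ∈ 𝔓'.asIdeal, p ∉ 𝔓.asIdeal) :
    ∃ (x : L) (g : O), InR α x ∧ algebraMap O L g = x * x / α ∧
      g - 1 ∈ 𝔓.asIdeal ∧ g ∈ 𝔓'.asIdeal := by
  obtain ⟨y, t, g, hy, ht, hg, hgt⟩ := stepA hα hs
  obtain ⟨p, hp', hp⟩ := hne
  have hmax : 𝔓.asIdeal.IsMaximal := 𝔓.isMaximal
  have htp : t * p ∉ 𝔓.asIdeal := fun h => (𝔓.isPrime.mem_or_mem h).elim ht hp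
  obtain ⟨c, i, hi, hci⟩ := hmax.exists_inv htp
  obtain ⟨ε, hε⟩ : ∃ ε, ε = c * p := ⟨_, rfl⟩
  have hεt : ε * t - 1 ∈ 𝔓.asIdeal := by
    have : ε * t - 1 = -i := by rw [hε, ← hci]; ring
    rw [this]
    exact 𝔓.asIdeal.neg_mem hi
  refine ⟨algebraMap O L ε * y, ε ^ 2 * g, hy.mul ((int_iff O _).2 ⟨_, rfl⟩), ?_, ?_, ?_⟩
  · rw [map_mul, map_pow, hg]
    ring
  · have h1 : ε ^ 2 * g - 1 = ε ^ 2 * (g - t ^ 2) + (ε * t + 1) * (ε * t - 1) := by ring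
    rw [h1]
    exact 𝔓.asIdeal.add_mem (𝔓.asIdeal.mul_mem_left _ hgt) (𝔓.asIdeal.mul_mem_left _ hεt)
  · rw [hε, mul_pow, mul_assoc]
    refine 𝔓'.asIdeal.mul_mem_left _ (𝔓'.asIdeal.mul_mem_right _ ?_)
    exact Ideal.pow_mem_of_mem _ hp' 2 two_pos

end main

/-- **TVR** -/
theorem tvr : Pool.Agent.H458.AR.S_TVR := by
  intro L O _ _ _ _ _ _ _ a b θ h hsq α e hα hSR Q hQ hQ2 hQb hns hEv hSq
  have hI : S_INT := Pool.Agent.N849.PQ.int
  obtain ⟨t, ht⟩ := theta_ex O h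
  obtain ⟨𝔓, hv, ht1⟩ := exists_P1 (O := O) hI h hsq hQ hQb t ht
  obtain ⟨𝔮, hv2, ht2⟩ := exists_P2 (O := O) hI h hsq hQ hQb t ht
  have htq := theta_not_mem hQ hns hv2 ht2
  have ht2p : t ^ 2 + (a : O) ∉ 𝔓.asIdeal := by
    intro h1
    have h2 : (a : O) ∈ 𝔓.asIdeal := by
      have := 𝔓.asIdeal.sub_mem h1 (𝔓.asIdeal.mul_mem_left t ht1)
      have e : t ^ 2 + (a : O) - t * t = (a : O) := by ring
      rwa [e] at this
    exact not_dvd_a hns ((poly_mem hQ hv a).1 h2)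
  obtain ⟨x₁, g₁, hx₁, hg₁, hg₁P, hg₁q⟩ := stepB hα (hSq 𝔓 hv) ⟨_, ht2, ht2p⟩
  obtain ⟨x₂, g₂, hx₂, hg₂, hg₂q, hg₂P⟩ := stepB hα (hSq 𝔮 hv2) ⟨_, ht1, htq⟩
  obtain ⟨hh, hhh⟩ := (int_iff O _).1 (hx₁.prod hx₂)
  have hsqh : hh ^ 2 = g₁ * g₂ := by
    apply IsFractionRing.injective O L
    rw [map_pow, map_mul, hhh, hg₁, hg₂]
    field_simp
  have hhP : hh ∈ 𝔓.asIdeal := by
    apply 𝔓.isPrime.mem_of_pow_mem 2
    rw [hsqh]
    exact 𝔓.asIdeal.mul_mem_left _ hg₂P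
  have hhq : hh ∈ 𝔮.asIdeal := by
    apply 𝔮.isPrime.mem_of_pow_mem 2
    rw [hsqh]
    exact 𝔮.asIdeal.mul_mem_right _ hg₁q
  obtain ⟨ξ, hξ⟩ := (hSR.mem _).1 (hx₁.add hx₂)
  obtain ⟨ξ', hξ'⟩ := (hSR.mem _).1 (hx₁.sub hx₂)
  -- coordinates of the values
  have hval : ∀ (c : ℤ), c = 1 ∨ c = -1 → ∃ v : Fin 3 → ℤ, Q ∣ v 1 ∧ Q ∣ v 2 ∧
      Crd θ v ((x₁ + (c : L) * x₂) ^ 2 / α) := by
    intro c hc
    have hcc : c * c = 1 := by rcases hc with rfl | rfl <;> ring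
    obtain ⟨z, hz⟩ : ∃ z : O, z = g₁ + 2 * (c : O) * hh + g₂ := ⟨_, rfl⟩
    have hzL : algebraMap O L z = (x₁ + (c : L) * x₂) ^ 2 / α := by
      rw [hz]
      simp only [map_add, map_mul, mapO, hg₁, hg₂, hhh, map_ofNat]
      have h3 : (c : L) * (c : L) = 1 := by
        exact_mod_cast congrArg (Int.cast (R := L)) hcc
      have h4 : (x₁ + (c : L) * x₂) ^ 2 / α = x₁ * x₁ / α +
        2 * (c : L) * (x₁ * x₂ / α) +
        ((c : L) * (c : L)) * (x₂ * x₂ / α) := by ring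
      rw [h4, h3, one_mul]
    obtain ⟨v, hvz⟩ := exO (O := O) hI h hsq z
    have hz1 : Crd θ (v + ![-1, 0, 0]) (algebraMap O L (z - 1)) := by
      have := crd_add hvz (crd_C θ (-1))
      have e1 : algebraMap O L z + ((-1 : ℤ) : L) = algebraMap O L (z - 1) := by
        rw [Int.cast_neg, Int.cast_one, map_sub, map_one]; ring
      rwa [e1] at this
    have hzP : z - 1 ∈ 𝔓.asIdeal := by
      have e1 : z - 1 = (g₁ - 1) + 2 * (c : O) * hh + g₂ := by rw [hz]; ring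
      rw [e1]
      exact 𝔓.asIdeal.add_mem (𝔓.asIdeal.add_mem hg₁P (𝔓.asIdeal.mul_mem_left _ hhP)) hg₂P
    have hzq : z - 1 ∈ 𝔮.asIdeal := by
      have e1 : z - 1 = g₁ + 2 * (c : O) * hh + (g₂ - 1) := by rw [hz]; ring
      rw [e1]
      exact 𝔮.asIdeal.add_mem (𝔮.asIdeal.add_mem hg₁q (𝔮.asIdeal.mul_mem_left _ hhq)) hg₂q
    obtain ⟨-, h7, h8⟩ := mem_both hQ hns ht hv hv2 ht1 ht2 hz1 hzP hzq
    refine ⟨v, ?_, ?_, ?_⟩
    · simpa using h7
    · simpa using h8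
    · rw [← hzL]
      exact hvz
  have hv1 : ∃ v : Fin 3 → ℤ, Q ∣ v 1 ∧ Q ∣ v 2 ∧
      Crd θ v ((∑ i, ((ξ i : ℤ) : L) * e i) ^ 2 / α) := by
    obtain ⟨v, a1, a2, a3⟩ := hval 1 (Or.inl rfl)
    refine ⟨v, a1, a2, ?_⟩
    rw [← hξ]
    rw [Int.cast_one, one_mul] at a3
    exact a3
  have hv1' : ∃ v : Fin 3 → ℤ, Q ∣ v 1 ∧ Q ∣ v 2 ∧
      Crd θ v ((∑ i, ((ξ' i : ℤ) : L) * e i) ^ 2 / α) := by
    obtain ⟨v, a1, a2, a3⟩ := hval (-1) (Or.inr rfl)
    refine ⟨v, a1, a2, ?_⟩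
    rw [← hξ']
    rw [Int.cast_neg, Int.cast_one, neg_one_mul, ← sub_eq_add_neg] at a3
    exact a3
  refine ⟨ξ, ξ', ?_, hv1, hv1'⟩
  by_contra hcon
  push Not at hcon
  have hg₁n : g₁ ∉ 𝔓.asIdeal := by
    intro hg
    apply 𝔓.isPrime.ne_top
    rw [Ideal.eq_top_iff_one]
    have := 𝔓.asIdeal.sub_mem hg hg₁P
    rwa [sub_sub_cancel] at this
  have hg₂n : g₂ ∉ 𝔮.asIdeal := by
    intro hg
    apply 𝔮.isPrime.ne_top
    rw [Ideal.eq_top_iff_one]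
    have := 𝔮.asIdeal.sub_mem hg hg₂q
    rwa [sub_sub_cancel] at this
  -- all coordinates are divisible by `Q`
  have hdiv : ∀ j, Q ∣ ξ j := by
    intro j
    choose r hr using fun i => hcon j i
    have hrel : ((ξ j : ℤ) : L) * (x₁ - x₂) - ((ξ' j : ℤ) : L) * (x₁ + x₂) =
        (Q : L) * ∑ i, ((r i : ℤ) : L) * e i := by
      rw [hξ, hξ', Finset.mul_sum, Finset.mul_sum, Finset.mul_sum, ← Finset.sum_sub_distrib]
      refine Finset.sum_congr rfl fun i _ => ?_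
      have h1 := congrArg (Int.cast (R := L)) (hr i)
      rw [Int.cast_sub, Int.cast_mul, Int.cast_mul, Int.cast_mul] at h1
      linear_combination (e i) * h1
    have hw : InR α (∑ i, ((r i : ℤ) : L) * e i) := InR.of_span hSR r
    obtain ⟨w₁, hw₁⟩ := (int_iff O _).1 (hw.prod hx₁)
    obtain ⟨w₂, hw₂⟩ := (int_iff O _).1 (hw.prod hx₂)
    have e1 : ((ξ j - ξ' j : ℤ) : O) * g₁ =
        ((ξ j + ξ' j : ℤ) : O) * hh + (Q : O) * w₁ := by
      apply IsFractionRing.injective O L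
      simp only [map_add, map_mul, map_sub, mapO, hg₁, hhh, hw₁, Int.cast_sub, Int.cast_add]
      linear_combination (x₁ / α) * hrel
    have e2 : ((ξ j + ξ' j : ℤ) : O) * g₂ =
        ((ξ j - ξ' j : ℤ) : O) * hh - (Q : O) * w₂ := by
      apply IsFractionRing.injective O L
      simp only [map_add, map_mul, map_sub, mapO, hg₂, hhh, hw₂, Int.cast_sub, Int.cast_add]
      linear_combination (-x₂ / α) * hrel
    have e3 : ((ξ j - ξ' j : ℤ) : O) * g₁ ∈ 𝔓.asIdeal := by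
      rw [e1]
      exact 𝔓.asIdeal.add_mem (𝔓.asIdeal.mul_mem_left _ hhP) (𝔓.asIdeal.mul_mem_right _ hv)
    have e4 : ((ξ j + ξ' j : ℤ) : O) * g₂ ∈ 𝔮.asIdeal := by
      rw [e2]
      exact 𝔮.asIdeal.sub_mem (𝔮.asIdeal.mul_mem_left _ hhq) (𝔮.asIdeal.mul_mem_right _ hv2)
    have e5 : Q ∣ ξ j - ξ' j :=
      (poly_mem hQ hv _).1 ((𝔓.isPrime.mem_or_mem e3).resolve_right hg₁n)
    have e6 : Q ∣ ξ j + ξ' j :=
      (poly_mem hQ hv2 _).1 ((𝔮.isPrime.mem_or_mem e4).resolve_right hg₂n)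
    have e7 : Q ∣ 2 * ξ j := by
      have := dvd_add e5 e6
      have e8 : ξ j - ξ' j + (ξ j + ξ' j) = 2 * ξ j := by ring
      rwa [e8] at this
    exact (hQ.dvd_or_dvd e7).resolve_left hQ2
  choose r hr using hdiv
  have hx : x₁ + x₂ = (Q : L) * ∑ i, ((r i : ℤ) : L) * e i := by
    rw [hξ, Finset.mul_sum]
    refine Finset.sum_congr rfl fun i _ => ?_
    rw [hr i, Int.cast_mul]
    ring
  have hw : InR α (∑ i, ((r i : ℤ) : L) * e i) := InR.of_span hSR r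
  obtain ⟨w₁, hw₁⟩ := (int_iff O _).1 (hw.prod hx₁)
  have e1 : g₁ + hh = (Q : O) * w₁ := by
    apply IsFractionRing.injective O L
    simp only [map_add, map_mul, mapO, hg₁, hhh, hw₁]
    linear_combination (x₁ / α) * hx
  apply hg₁n
  have e2 : g₁ = (Q : O) * w₁ - hh := by rw [← e1]; ring
  rw [e2]
  exact 𝔓.asIdeal.sub_mem (𝔓.asIdeal.mul_mem_right _ hv) hhP

end Pool.Agent.H597.AR458
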